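import Mathlib

namespace Pool.Agent.Results.MP_ff748e_nt.Equiv

open Finset

/-- sum of the positive divisors -/
def sig (n : ℕ) : ℕ := ∑ d ∈ n.divisors, d

/-- denominator of `σ(n)/n` -/
def a (n : ℕ) : ℕ := n / Nat.gcd n (sig n)

/-- practical numbers -/
def Practical (m : ℕ) : Prop :=
  0 < m ∧ ∀ k : ℕ, 1 ≤ k → k ≤ sig m → ∃ S ⊆ m.divisors, ∑ d ∈ S, d = k

theorem complete (D : Finset ℕ) :
    (∀ d ∈ D, d ≤ 1 + ∑ e ∈ D.filter (· < d), e) → ∀ k ≤ ∑ d ∈ D, d, ∃ S ⊆ D, ∑ d ∈ S, d = k := by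
  induction D using Finset.induction_on_max with
  | empty => intro _ k hk; exact ⟨∅, by simp, by simp at hk ⊢; omega⟩
  | insert x s hx ih =>
    intro h k hk
    have hxs : x ∉ s := fun hh => lt_irrefl _ (hx x hh)
    have ih' := ih (fun d hd => by
      have h1 := h d (mem_insert_of_mem hd)
      have : (insert x s).filter (· < d) = s.filter (· < d) := by
        rw [filter_insert, if_neg (by have := hx d hd; omega)]
      rwa [this] at h1)
    have h2 := h x (mem_insert_self _ _)
    have : (insert x s).filter (· < x) = s := by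
      rw [filter_insert, if_neg (lt_irrefl _), filter_true_of_mem hx]
    rw [this] at h2
    rw [sum_insert hxs] at hk
    by_cases hk2 : k ≤ ∑ d ∈ s, d
    · obtain ⟨S, hS, hs⟩ := ih' k hk2
      exact ⟨S, hS.trans (subset_insert _ _), hs⟩
    · obtain ⟨S, hS, hs⟩ := ih' (k - x) (by omega)
      refine ⟨insert x S, insert_subset_insert _ hS, ?_⟩
      rw [sum_insert (fun hh => hxs (hS hh)), hs]; omega

theorem rep {m : ℕ} (hm : Practical m) (k : ℕ) (hk : k ≤ sig m) :
    ∃ S ⊆ m.divisors, ∑ d ∈ S, d = k := by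
  rcases Nat.eq_zero_or_pos k with rfl | h
  · exact ⟨∅, by simp, by simp⟩
  · exact hm.2 k h hk

theorem le_sig {m e : ℕ} (he : e ∈ m.divisors) : e ≤ sig m :=
  single_le_sum (f := fun d => d) (fun _ _ => Nat.zero_le _) he

theorem crit (D S : Finset ℕ) (d : ℕ) (hd : 1 ≤ d) (hS : S ⊆ D) (hs : ∑ e ∈ S, e = d - 1) :
    d ≤ 1 + ∑ e ∈ D.filter (· < d), e := by
  have : ∑ e ∈ S, e ≤ ∑ e ∈ D.filter (· < d), e := by
    apply sum_le_sum_of_subset
    intro e he
    have := single_le_sum (f := fun d => d) (fun _ _ => Nat.zero_le _) he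
    simp only [mem_filter]
    exact ⟨hS he, by omega⟩
  omega

theorem step {m q : ℕ} (hm : Practical m) (hq : q.Prime) (hqs : q ≤ sig m + 1) :
    Practical (m * q) := by
  have hm0 := hm.1
  have hq0 := hq.pos
  have hsub : m.divisors ⊆ (m * q).divisors :=
    Nat.divisors_subset_of_dvd (by positivity) (dvd_mul_right _ _)
  refine ⟨by positivity, fun k _ hk => complete _ (fun d hd => ?_) k hk⟩
  have hd1 : 1 ≤ d := Nat.pos_of_mem_divisors hd
  have hdv := Nat.dvd_of_mem_divisors hd
  by_cases hqd : q ∣ d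
  · obtain ⟨e, rfl⟩ := hqd
    have he : e ∣ m := by
      rw [mul_comm m q] at hdv; exact Nat.dvd_of_mul_dvd_mul_left hq0 hdv
    have he' : e ∈ m.divisors := Nat.mem_divisors.2 ⟨he, hm0.ne'⟩
    have he1 : 1 ≤ e := Nat.pos_of_mem_divisors he'
    obtain ⟨S, hS, hs⟩ := rep hm (e - 1) (by have := le_sig he'; omega)
    obtain ⟨T, hT, ht⟩ := rep hm (q - 1) (by omega)
    apply crit _ (S.image (q * ·) ∪ T) _ hd1
    · intro x hx
      rcases mem_union.1 hx with hx | hx
      · obtain ⟨y, hy, rfl⟩ := mem_image.1 hx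
        refine Nat.mem_divisors.2 ⟨?_, by positivity⟩
        rw [mul_comm m q]; exact Nat.mul_dvd_mul_left _ (Nat.dvd_of_mem_divisors (hS hy))
      · exact hsub (hT hx)
    · rw [sum_union, sum_image, ← mul_sum, hs, ht]
      · obtain ⟨e, rfl⟩ := Nat.exists_eq_add_of_le' he1
        simp only [Nat.add_sub_cancel, mul_add, mul_one]; omega
      · intro x _ y _ hxy; exact Nat.eq_of_mul_eq_mul_left hq0 hxy
      · rw [disjoint_left]
        intro x hx hxT
        obtain ⟨y, hy, rfl⟩ := mem_image.1 hx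
        have h1 := single_le_sum (f := fun d => d) (fun _ _ => Nat.zero_le _) hxT
        have h2 : 1 ≤ y := Nat.pos_of_mem_divisors (hS hy)
        have h3 : q * 1 ≤ q * y := Nat.mul_le_mul_left _ h2
        omega
  · have hc : Nat.Coprime d q := ((Nat.Prime.coprime_iff_not_dvd hq).2 hqd).symm
    have he' : d ∈ m.divisors := Nat.mem_divisors.2 ⟨hc.dvd_of_dvd_mul_right hdv, hm0.ne'⟩
    obtain ⟨S, hS, hs⟩ := rep hm (d - 1) (by have := le_sig he'; omega)
    exact crit _ S _ hd1 (hS.trans hsub) hs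

theorem main (H : ∀ N : ℕ, 1 < N → Odd N → ¬ N ∣ sig N) (N : ℕ) :
    ∀ m : ℕ, 0 < N → Practical m → a (m * N) ∣ m → Practical (m * N) := by
  induction N using Nat.strong_induction_on with
  | _ N ih =>
    intro m hN hm ha
    by_cases h1 : N = 1
    · subst h1; simpa using hm
    by_cases hs : ∃ q, q.Prime ∧ q ∣ N ∧ q ≤ sig m + 1
    · obtain ⟨q, hq, ⟨N', rfl⟩, hqs⟩ := hs
      have hN' : 0 < N' := Nat.pos_of_mul_pos_left hN
      have := ih N' (by have := hq.two_le; nlinarith) (m * q) hN' (step hm hq hqs)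
        (by rw [mul_assoc]; exact ha.mul_right _)
      rwa [mul_assoc] at this
    exfalso
    push Not at hs
    have hm0 := hm.1
    have hmm : m ≤ sig m := le_sig (Nat.mem_divisors_self _ hm0.ne')
    have cop : ∀ x, 0 < x → x ≤ sig m + 1 → Nat.Coprime N x := fun x hx hxs => by
      apply Nat.coprime_of_dvd
      intro q hq hqN hqx
      have := hs q hq hqN
      have := Nat.le_of_dvd hx hqx
      omega
    have c1 := cop m hm0 (by omega)
    have c2 := cop (sig m) (by omega) (by omega)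
    have c3 := cop 2 (by omega) (by omega)
    apply H N (by omega) (Nat.coprime_two_right.1 c3)
    have hmul : sig (m * N) = sig m * sig N := Nat.Coprime.sum_divisors_mul c1.symm
    have e1 : a (m * N) * Nat.gcd (m * N) (sig (m * N)) = m * N :=
      Nat.div_mul_cancel (Nat.gcd_dvd_left _ _)
    have c4 : Nat.Coprime N (a (m * N)) := Nat.Coprime.coprime_dvd_right ha c1
    have d1 : N ∣ Nat.gcd (m * N) (sig (m * N)) :=
      c4.dvd_of_dvd_mul_left (by rw [e1]; exact dvd_mul_left _ _)
    have d2 : N ∣ sig m * sig N := hmul ▸ d1.trans (Nat.gcd_dvd_right _ _)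
    exact c2.dvd_of_dvd_mul_left d2

theorem result :
    (∀ n : ℕ, 0 < n → Practical (a n) → Practical n) ↔
      ∀ N : ℕ, 1 < N → Odd N → ¬ N ∣ sig N := by
  constructor
  · intro h N hN ho hd
    have ha : a N = 1 := by
      unfold a; rw [Nat.gcd_eq_left hd]; exact Nat.div_self (by omega)
    have hp : Practical 1 := ⟨one_pos, fun k h1 h2 => ⟨{1}, by simp, by
      simp [sig] at h2 ⊢; omega⟩⟩
    have hNN : N ≤ sig N := le_sig (Nat.mem_divisors_self _ (by omega))
    obtain ⟨S, hS, hs⟩ := (h N (by omega) (ha ▸ hp)).2 2 (by omega) (by omega)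
    have : S ⊆ {1} := by
      intro x hx
      have h1 := single_le_sum (f := fun d => d) (fun _ _ => Nat.zero_le _) hx
      have h2 : 1 ≤ x := Nat.pos_of_mem_divisors (hS hx)
      have h3 : Odd x := ho.of_dvd_nat (Nat.dvd_of_mem_divisors (hS hx))
      obtain ⟨t, ht⟩ := h3
      simp only [mem_singleton]; omega
    have := sum_le_sum_of_subset (f := fun d : ℕ => d) this
    simp only [sum_singleton] at this
    omega
  · intro H n hn hp
    have e1 : a n * Nat.gcd n (sig n) = n := Nat.div_mul_cancel (Nat.gcd_dvd_left _ _)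
    have := main H (Nat.gcd n (sig n)) (a n) (Nat.gcd_pos_of_pos_left _ hn) hp (by rw [e1])
    rwa [e1] at this

end Pool.Agent.Results.MP_ff748e_nt.Equiv
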